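import Pool.Agent.Run7.h367.DP.Fat

/-!
Clique minors of graphs of large chromatic number, and of direct products.
-/

set_option autoImplicit false

namespace Pool.Agent.Run7.h367.DP

open SimpleGraph
open Pool.Agent.R34.FH Pool.Agent.TH507.Host

variable {V W : Type} {G : SimpleGraph V} {H : SimpleGraph W}

/-- the theorem of Kostochka and Thomason -/
theorem KT {t : ℕ} (ht : 2 ≤ t) (V : Type) [Fintype V] [Nonempty V] (G : SimpleGraph V)
    (h : 36000 * (t * √(Real.log t)) ≤ avgDeg G) : CM G (2 * t) := by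
  classical
  have h1 : ∀ x, ((⊤ : SimpleGraph (Fin t)).neighborSet x).ncard ≤ t := by
    intro x
    have := Set.ncard_le_ncard (Set.subset_univ ((⊤ : SimpleGraph (Fin t)).neighborSet x))
      Set.finite_univ
    rwa [Set.ncard_univ, Nat.card_fin] at this
  have h2 := upper (d := t) (s := t) (t := t) ht ht le_rfl ⊤ h1 V G (by
    refine le_trans (le_of_eq ?_) h
    unfold Pool.Agent.R34.FH.size
    have h3 : √((t : ℝ) * t * Real.log t) = t * √(Real.log t) := by
      rw [Real.sqrt_mul (by positivity), Real.sqrt_mul_self (by positivity)]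
    rw [h3]
    ring)
  obtain ⟨B, hB1, hB2, hB3⟩ := h2
  have h5 : 2 * t = t + t := by ring
  let e : Fin (2 * t) ≃ Fin t ⊕ Fin t := (finCongr h5).trans finSumFinEquiv.symm
  refine ⟨fun i => B (e i), fun i => hB1 _, fun i j hij => hB2 _ _ (fun h => hij (e.injective h)),
    fun i j hij => hB3 _ _ ?_⟩
  have hne : e i ≠ e j := fun h => hij (e.injective h)
  revert hne
  generalize e i = x
  generalize e j = y
  intro hne
  rcases x with a | a <;> rcases y with b | b
  · show a ≠ b
    exact fun h => hne (by rw [h])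
  · trivial
  · trivial
  · show (⊤ : SimpleGraph (Fin t)).Adj a b
    rw [top_adj]
    exact fun h => hne (by rw [h])

/-- a vertex of small degree can be coloured last -/
lemma extend_col {V : Type} [Fintype V] (G : SimpleGraph V) (k : ℕ) (S : Set V) (v : V)
    (h1 : (G.induce (S \ {v})).Colorable k)
    (h2 : {w | w ∈ S ∧ G.Adj v w}.ncard < k) : (G.induce S).Colorable k := by
  classical
  obtain ⟨c⟩ := h1
  let U : Set (Fin k) := {x | ∃ w : (S \ {v} : Set V), G.Adj v w.1 ∧ c w = x}
  have hU : U.ncard < k := by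
    have h3 : U ⊆ (fun w => if h : w ∈ S \ {v} then c ⟨w, h⟩ else ⟨0, by omega⟩) ''
        {w | w ∈ S ∧ G.Adj v w} := by
      rintro x ⟨w, hw, rfl⟩
      refine ⟨w.1, ⟨w.2.1, hw⟩, ?_⟩
      simp only [w.2, dif_pos]
    exact lt_of_le_of_lt ((Set.ncard_le_ncard h3 (Set.toFinite _)).trans
      (Set.ncard_image_le (Set.toFinite _))) h2
  obtain ⟨x, hx⟩ : ∃ x, x ∉ U := by
    by_contra hcon
    push Not at hcon
    have : U = Set.univ := Set.eq_univ_of_forall hcon
    rw [this, Set.ncard_univ, Nat.card_fin] at hU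
    exact lt_irrefl _ hU
  refine ⟨Coloring.mk (fun w => if h : w.1 = v then x else c ⟨w.1, w.2, h⟩) ?_⟩
  rintro ⟨a, ha⟩ ⟨b, hb⟩ hab
  have hab' : G.Adj a b := hab
  by_cases h3 : a = v
  · by_cases h4 : b = v
    · exact absurd (h3.trans h4.symm) hab'.ne
    · simp only [h3, h4, dif_pos, dif_neg, not_false_eq_true]
      intro h5
      apply hx
      exact ⟨⟨b, hb, h4⟩, h3 ▸ hab', h5.symm⟩
  · by_cases h4 : b = v
    · simp only [h3, h4, dif_pos, dif_neg, not_false_eq_true]
      intro h5
      apply hx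
      exact ⟨⟨a, ha, h3⟩, h4 ▸ hab'.symm, h5⟩
    · simp only [h3, h4, dif_neg, not_false_eq_true]
      exact c.valid (v := ⟨a, ha, h3⟩) (w := ⟨b, hb, h4⟩) hab'

/-- a graph that is not `k`-colourable has an induced subgraph with all degrees at least `k` -/
lemma dense_sub {V : Type} [Fintype V] (G : SimpleGraph V) (k : ℕ) (h : ¬ G.Colorable k) :
    ∃ S : Set V, S.Nonempty ∧ ∀ v ∈ S, k ≤ {w | w ∈ S ∧ G.Adj v w}.ncard := by
  classical
  have hex : ∃ n : ℕ, ∃ S : Set V, S.ncard = n ∧ ¬ (G.induce S).Colorable k := by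
    refine ⟨_, Set.univ, rfl, fun hc => h ?_⟩
    exact Colorable.of_hom (G.induceUnivIso.symm.toHom) hc
  obtain ⟨S, hS1, hS2⟩ := Nat.find_spec hex
  refine ⟨S, ?_, ?_⟩
  · rw [Set.nonempty_iff_ne_empty]
    rintro rfl
    exact hS2 ⟨Coloring.mk (fun x => x.2.elim) (fun {x} => x.2.elim)⟩
  · intro v hv
    by_contra hlt
    push Not at hlt
    apply hS2
    apply extend_col G k S v _ hlt
    by_contra hcon
    have h1 := Nat.find_min' hex ⟨S \ {v}, rfl, hcon⟩
    have h2 := Set.ncard_diff_singleton_lt_of_mem hv (Set.toFinite S)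
    omega

/-- **Large chromatic number gives a clique minor.** -/
theorem chi_minor {V : Type} [Fintype V] (G : SimpleGraph V) (k : ℕ) (h : ¬ G.Colorable k)
    {t : ℕ} (ht : 2 ≤ t) (hk : 36000 * (t * √(Real.log t)) ≤ k) : CM G (2 * t) := by
  classical
  obtain ⟨S, hS1, hS2⟩ := dense_sub G k h
  have hne : Nonempty S := hS1.to_subtype
  have hf : Fintype S := Fintype.ofFinite S
  have h1 : (k : ℝ) ≤ avgDeg (G.induce S) := by
    have hpos : (0 : ℝ) < Fintype.card S := by exact_mod_cast Fintype.card_pos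
    rw [avgDeg_eq, le_div_iff₀ hpos]
    have h2 : k * Fintype.card S ≤ pr (G.induce S) := by
      rw [pr_eq]
      calc k * Fintype.card S = ∑ _x : S, k := by
            rw [Finset.sum_const, Finset.card_univ, smul_eq_mul, mul_comm]
        _ ≤ _ := Finset.sum_le_sum (fun x _ => ?_)
      refine (hS2 x.1 x.2).trans ?_
      have h3 : {w | w ∈ S ∧ G.Adj x.1 w} =
          Subtype.val '' ((nb (G.induce S) x : Finset S) : Set S) := by
        ext w
        constructor
        · rintro ⟨hw, hxw⟩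
          exact ⟨⟨w, hw⟩, by rw [Finset.mem_coe, mem_nb]; exact hxw, rfl⟩
        · rintro ⟨y, hy, rfl⟩
          rw [Finset.mem_coe, mem_nb] at hy
          exact ⟨y.2, hy⟩
      rw [h3, Set.ncard_image_of_injective _ Subtype.val_injective, Set.ncard_coe_finset]
    exact_mod_cast h2
  exact CM.of_hom (G := G.induce S) (H := G) Subtype.val Subtype.val_injective
    (fun _ _ h => h) (KT ht S (G.induce S) (hk.trans h1))

/-- transitivity -/
lemma CM.of_minor {A U : Type} {K : SimpleGraph A} {F : SimpleGraph U} {m : ℕ}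
    (h : IsMinor K F) (hm : CM K m) : CM F m := by
  have h1 : IsMinor (⊤ : SimpleGraph (Fin m)) K := by
    obtain ⟨B, h1, h2, h3⟩ := hm
    exact ⟨B, h1, h2, fun x y hxy => h3 x y hxy⟩
  obtain ⟨B, h2, h3, h4⟩ := Pool.Agent.R34.Ident.minor_trans h1 h
  exact ⟨B, h2, h3, fun x y hxy => h4 x y ((top_adj _ _).2 hxy)⟩

end Pool.Agent.Run7.h367.DP
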