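import Mathlib

/-!
Direct products of graphs: connectivity.
-/

set_option autoImplicit false

namespace Pool.Agent.Run7.h367.DP

open SimpleGraph

/-- the direct product -/
def T {V W : Type} (G : SimpleGraph V) (H : SimpleGraph W) : SimpleGraph (V × W) where
  Adj x y := G.Adj x.1 y.1 ∧ H.Adj x.2 y.2
  symm := ⟨fun _ _ h => ⟨h.1.symm, h.2.symm⟩⟩
  loopless := ⟨fun _ h => G.loopless.irrefl _ h.1⟩

variable {V W : Type} {G : SimpleGraph V} {H : SimpleGraph W}

lemma T_adj {x y : V × W} : (T G H).Adj x y ↔ G.Adj x.1 y.1 ∧ H.Adj x.2 y.2 := Iff.rfl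

/-- walks of the same length give reachability in the product -/
lemma reach_of_walks : ∀ (n : ℕ) {a a' : V} {b b' : W} (p : G.Walk a a') (q : H.Walk b b'),
    p.length = n → q.length = n → (T G H).Reachable (a, b) (a', b') := by
  intro n
  induction n with
  | zero =>
    intro a a' b b' p q hp hq
    have h1 := Walk.eq_of_length_eq_zero hp
    have h2 := Walk.eq_of_length_eq_zero hq
    subst h1 h2
    exact Reachable.refl _
  | succ n ih =>
    intro a a' b b' p q hp hq
    cases p with
    | nil => simp at hp
    | cons h p =>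
      cases q with
      | nil => simp at hq
      | cons h' q =>
        rw [Walk.length_cons] at hp hq
        have hadj : (T G H).Adj (a, b) (_, _) := T_adj.2 ⟨h, h'⟩
        exact hadj.reachable.trans (ih p q (by omega) (by omega))

/-- prolong a walk at its start -/
lemma prolong {a c a' : V} (h : G.Adj a c) (p : G.Walk a a') (k : ℕ) :
    ∃ q : G.Walk a a', q.length = p.length + 2 * k := by
  induction k with
  | zero => exact ⟨p, by simp⟩
  | succ k ih =>
    obtain ⟨q, hq⟩ := ih
    refine ⟨Walk.cons h (Walk.cons h.symm q), ?_⟩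
    rw [Walk.length_cons, Walk.length_cons, hq]
    ring

/-- walks of lengths of the same parity -/
lemma reach_of_parity {a c a' : V} {b d b' : W} (h : G.Adj a c) (h' : H.Adj b d)
    (p : G.Walk a a') (q : H.Walk b b') (he : Even (p.length + q.length)) :
    (T G H).Reachable (a, b) (a', b') := by
  obtain ⟨k, hk⟩ := he
  obtain ⟨p', hp'⟩ := prolong h p q.length
  obtain ⟨q', hq'⟩ := prolong h' q k
  exact reach_of_walks (p.length + 2 * q.length) p' q' hp' (by omega)

/-- at most two components -/
lemma two_comp (hG : G.Preconnected) (hH : H.Preconnected) {a₀ a₁ : V} (ha : G.Adj a₀ a₁)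
    {b₀ b₁ : W} (hb : H.Adj b₀ b₁) (a : V) (b : W) :
    (T G H).Reachable (a₀, b₀) (a, b) ∨ (T G H).Reachable (a₁, b₀) (a, b) := by
  obtain ⟨p⟩ := hG a₀ a
  obtain ⟨q⟩ := hH b₀ b
  rcases Nat.even_or_odd (p.length + q.length) with h | h
  · exact Or.inl (reach_of_parity ha hb p q h)
  · refine Or.inr (reach_of_parity ha.symm hb (Walk.cons ha.symm p) q ?_)
    rw [Walk.length_cons]
    have : p.length + 1 + q.length = p.length + q.length + 1 := by ring
    rw [this]
    exact h.add_one

/-- an odd closed walk at every vertex of a connected graph that is not bipartite -/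
lemma odd_loop (hH : H.Preconnected) (h2 : ¬ H.Colorable 2) (b : W) :
    ∃ q : H.Walk b b, Odd q.length := by
  rw [two_colorable_iff_forall_loop_even] at h2
  push Not at h2
  obtain ⟨u, w, hw⟩ := h2
  obtain ⟨p⟩ := hH b u
  refine ⟨p.append (w.append p.reverse), ?_⟩
  rw [Walk.length_append, Walk.length_append, Walk.length_reverse]
  rw [Nat.not_even_iff_odd] at hw
  have : p.length + (w.length + p.length) = w.length + 2 * p.length := by ring
  rw [this]
  exact hw.add_even (even_two_mul _)

/-- the product is connected if one factor is not bipartite -/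
lemma conn_of_odd (hG : G.Preconnected) (hH : H.Preconnected) {a₀ a₁ : V} (ha : G.Adj a₀ a₁)
    {b₀ b₁ : W} (hb : H.Adj b₀ b₁) (h2 : ¬ H.Colorable 2) : (T G H).Connected := by
  rw [connected_iff_exists_forall_reachable]
  refine ⟨(a₀, b₀), ?_⟩
  rintro ⟨a, b⟩
  rcases two_comp hG hH ha hb a b with h | h
  · exact h
  · obtain ⟨q, hq⟩ := odd_loop hH h2 b₀
    refine (reach_of_parity ha hb ha.toWalk q ?_).trans h
    have : ha.toWalk.length = 1 := by simp
    rw [this, add_comm]
    exact hq.add_one

/-- the image of a component -/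
lemma conn_image {A U : Type} {K : SimpleGraph A} {F : SimpleGraph U} (f : A → U)
    (hf : ∀ a b, K.Adj a b → F.Adj (f a) (f b)) (a₀ : A) :
    (F.induce (f '' {a | K.Reachable a₀ a})).Connected := by
  rw [connected_iff_exists_forall_reachable]
  refine ⟨⟨f a₀, a₀, Reachable.refl _, rfl⟩, ?_⟩
  rintro ⟨_, a, ha, rfl⟩
  have ha' : K.Reachable a₀ a := ha
  have key : ∀ a, Relation.ReflTransGen K.Adj a₀ a → ∀ (hm : f a ∈ f '' {a | K.Reachable a₀ a}),
      (F.induce (f '' {a | K.Reachable a₀ a})).Reachable
        ⟨f a₀, a₀, Reachable.refl _, rfl⟩ ⟨f a, hm⟩ := by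
    intro a h
    induction h with
    | refl => intro hm; exact Reachable.refl _
    | @tail b c hb hc ih =>
      intro hm
      have hbm : f b ∈ f '' {a | K.Reachable a₀ a} :=
        ⟨b, (reachable_iff_reflTransGen _ _).2 hb, rfl⟩
      refine (ih hbm).trans (Adj.reachable ?_)
      exact hf b c hc
  exact key a ((reachable_iff_reflTransGen _ _).1 ha') _

end Pool.Agent.Run7.h367.DP
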