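import Pool.Agent.Run7.h367.DP.Minor
import Pool.Agent.R34.FH.Upper

/-!
The number of components of the cells, and the dense minor of a direct product.
-/

set_option autoImplicit false

namespace Pool.Agent.Run7.h367.DP

open SimpleGraph
open Pool.Agent.R34.FH Pool.Agent.TH507.Host

variable {V W : Type} {G : SimpleGraph V} {H : SimpleGraph W}

/-- clique minors all of whose branch sets contain an edge -/
def Fat {V : Type} (G : SimpleGraph V) (p : ℕ) : Prop :=
  ∃ D : Fin p → Set V,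
    (∀ i, (G.induce (D i)).Connected) ∧
    (∀ i j, i ≠ j → Disjoint (D i) (D j)) ∧
    (∀ i j, ∃ u ∈ D i, ∃ w ∈ D j, G.Adj u w)

lemma fat_of_CM {p : ℕ} (h : CM G (2 * p)) : Fat G p := by
  obtain ⟨B, h1, h2, h3⟩ := h
  let l : Fin p → Fin (2 * p) := fun i => ⟨2 * i.1, by omega⟩
  let r : Fin p → Fin (2 * p) := fun i => ⟨2 * i.1 + 1, by omega⟩
  have hlr : ∀ i j, l i ≠ r j := fun i j h => by
    have := congrArg Fin.val h
    simp only [l, r] at this
    omega
  have hll : ∀ i j, i ≠ j → l i ≠ l j := fun i j hij h => by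
    have := congrArg Fin.val h
    simp only [l] at this
    exact hij (Fin.ext (by omega))
  have hrr : ∀ i j, i ≠ j → r i ≠ r j := fun i j hij h => by
    have := congrArg Fin.val h
    simp only [r] at this
    exact hij (Fin.ext (by omega))
  refine ⟨fun i => B (l i) ∪ B (r i), ?_, ?_, ?_⟩
  · intro i
    obtain ⟨u, hu, w, hw, huw⟩ := h3 (l i) (r i) (hlr i i)
    exact connected_induce_union (h1 _).preconnected (h1 _).preconnected hu hw huw
  · intro i j hij
    rw [Set.disjoint_union_left, Set.disjoint_union_right, Set.disjoint_union_right]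
    exact ⟨⟨h2 _ _ (hll i j hij), h2 _ _ (hlr i j)⟩,
      ⟨h2 _ _ (hlr j i).symm, h2 _ _ (hrr i j hij)⟩⟩
  · intro i j
    obtain ⟨u, hu, w, hw, huw⟩ := h3 (l i) (r j) (hlr i j)
    exact ⟨u, Or.inl hu, w, Or.inr hw, huw⟩

lemma fat_one {a b : V} (h : G.Adj a b) : Fat G 1 := by
  refine ⟨fun _ => {a, b}, fun _ => induce_pair_connected_of_adj h, ?_, ?_⟩
  · intro i j hij
    exact absurd (Subsingleton.elim i j) hij
  · intro i j
    exact ⟨a, Or.inl rfl, b, Or.inr rfl, h⟩

/-- the dense minor -/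
theorem dense_minor {p q : ℕ} (hG : Fat G p) (hH : Fat H q) (hp : 1 ≤ p) (hq : 1 ≤ q) :
    ∃ (I : Type) (_ : Fintype I) (_ : Nonempty I) (K : SimpleGraph I), IsMinor K (T G H) ∧
      ((p * q : ℕ) - 1 : ℝ) / 2 ≤ avgDeg K := by
  classical
  obtain ⟨D, hD1, hD2, hD3⟩ := hG
  obtain ⟨D', hD1', hD2', hD3'⟩ := hH
  have e1 : ∀ i, ∃ u : D i, ∃ w : D i, (G.induce (D i)).Adj u w := fun i => by
    obtain ⟨u, hu, w, hw, huw⟩ := hD3 i i
    exact ⟨⟨u, hu⟩, ⟨w, hw⟩, huw⟩
  have e2 : ∀ i, ∃ u : D' i, ∃ w : D' i, (H.induce (D' i)).Adj u w := fun i => by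
    obtain ⟨u, hu, w, hw, huw⟩ := hD3' i i
    exact ⟨⟨u, hu⟩, ⟨w, hw⟩, huw⟩
  choose u w huw using e1
  choose a b hab using e2
  let C : Fin p × Fin q × Bool → Set (V × W) := fun t =>
    (fun x : D t.1 × D' t.2.1 => ((x.1.1, x.2.1) : V × W)) ''
      {x | (T (G.induce (D t.1)) (H.induce (D' t.2.1))).Reachable
        (if t.2.2 then w t.1 else u t.1, a t.2.1) x}
  have hconn : ∀ t, ((T G H).induce (C t)).Connected := fun t =>
    conn_image (K := T (G.induce (D t.1)) (H.induce (D' t.2.1))) (F := T G H)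
      (fun x : D t.1 × D' t.2.1 => ((x.1.1, x.2.1) : V × W)) (fun x y h => h)
      (if t.2.2 then w t.1 else u t.1, a t.2.1)
  have hsub : ∀ t, ∀ x ∈ C t, x.1 ∈ D t.1 ∧ x.2 ∈ D' t.2.1 := by
    rintro t x ⟨y, -, rfl⟩
    exact ⟨y.1.2, y.2.2⟩
  have hcov : ∀ i j x y, x ∈ D i → y ∈ D' j →
      (x, y) ∈ C (i, j, false) ∨ (x, y) ∈ C (i, j, true) := by
    intro i j x y hx hy
    rcases two_comp (hD1 i).preconnected (hD1' j).preconnected (huw i) (hab j) ⟨x, hx⟩ ⟨y, hy⟩
      with h | h
    · left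
      exact ⟨(⟨x, hx⟩, ⟨y, hy⟩), by simpa using h, rfl⟩
    · right
      exact ⟨(⟨x, hx⟩, ⟨y, hy⟩), by simpa using h, rfl⟩
  have heq : ∀ i j, C (i, j, false) = C (i, j, true) ∨
      Disjoint (C (i, j, false)) (C (i, j, true)) := by
    intro i j
    by_cases h : Disjoint (C (i, j, false)) (C (i, j, true))
    · exact Or.inr h
    · left
      rw [Set.not_disjoint_iff] at h
      obtain ⟨z, ⟨x, hx, rfl⟩, ⟨y, hy, hxy⟩⟩ := h
      have hxy' : y = x := by
        have h1 := congrArg Prod.fst hxy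
        have h2 := congrArg Prod.snd hxy
        exact Prod.ext (Subtype.ext h1) (Subtype.ext h2)
      subst hxy'
      have hx' : (T (G.induce (D i)) (H.induce (D' j))).Reachable (u i, a j) y := by
        simpa using hx
      have hy' : (T (G.induce (D i)) (H.induce (D' j))).Reachable (w i, a j) y := by
        simpa using hy
      have h3 : (T (G.induce (D i)) (H.induce (D' j))).Reachable (u i, a j) (w i, a j) :=
        hx'.trans hy'.symm
      ext z
      constructor
      · rintro ⟨v, hv, rfl⟩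
        have hv' : (T (G.induce (D i)) (H.induce (D' j))).Reachable (u i, a j) v := by
          simpa using hv
        exact ⟨v, by simpa using h3.symm.trans hv', rfl⟩
      · rintro ⟨v, hv, rfl⟩
        have hv' : (T (G.induce (D i)) (H.induce (D' j))).Reachable (w i, a j) v := by
          simpa using hv
        exact ⟨v, by simpa using h3.trans hv', rfl⟩
  let P : Fin p × Fin q × Bool → Prop := fun t =>
    t.2.2 = false ∨ Disjoint (C (t.1, t.2.1, false)) (C (t.1, t.2.1, true))
  let I : Type := {t : Fin p × Fin q × Bool // P t}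
  have hdisj : ∀ s t : I, s ≠ t → Disjoint (C s.1) (C t.1) := by
    rintro ⟨⟨i, j, e⟩, hs⟩ ⟨⟨i', j', e'⟩, ht⟩ hst
    by_cases hi : i = i'
    · by_cases hj : j = j'
      · subst hi hj
        have he : e ≠ e' := fun h => hst (by subst h; rfl)
        cases e <;> cases e'
        · exact absurd rfl he
        · rcases ht with h | h
          · exact absurd h (by simp)
          · exact h
        · rcases hs with h | h
          · exact absurd h (by simp)
          · exact h.symm
        · exact absurd rfl he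
      · rw [Set.disjoint_left]
        intro x hx hx'
        exact Set.disjoint_left.1 (hD2' j j' hj) (hsub _ x hx).2 (hsub _ x hx').2
    · rw [Set.disjoint_left]
      intro x hx hx'
      exact Set.disjoint_left.1 (hD2 i i' hi) (hsub _ x hx).1 (hsub _ x hx').1
  let K : SimpleGraph I :=
    { Adj := fun s t => s ≠ t ∧ ∃ x ∈ C s.1, ∃ y ∈ C t.1, (T G H).Adj x y
      symm := ⟨fun s t h => ⟨h.1.symm, by
        obtain ⟨x, hx, y, hy, hxy⟩ := h.2
        exact ⟨y, hy, x, hx, hxy.symm⟩⟩⟩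
      loopless := ⟨fun s h => h.1 rfl⟩ }
  have hfind : ∀ i j x y, x ∈ D i → y ∈ D' j → ∃ s : I, s.1.1 = i ∧ s.1.2.1 = j ∧
      (x, y) ∈ C s.1 := by
    intro i j x y hx hy
    rcases hcov i j x y hx hy with h | h
    · exact ⟨⟨(i, j, false), Or.inl rfl⟩, rfl, rfl, h⟩
    · rcases heq i j with h1 | h1
      · exact ⟨⟨(i, j, false), Or.inl rfl⟩, rfl, rfl, by rw [h1]; exact h⟩
      · exact ⟨⟨(i, j, true), Or.inr h1⟩, rfl, rfl, h⟩
  have hI : Nonempty I := ⟨⟨(⟨0, by omega⟩, ⟨0, by omega⟩, false), Or.inl rfl⟩⟩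
  have hFI : Fintype I := inferInstanceAs (Fintype {t : Fin p × Fin q × Bool // P t})
  refine ⟨I, hFI, hI, K, ⟨fun s => C s.1, fun s => hconn _, hdisj, fun s t h => h.2⟩, ?_⟩
  -- the number of vertices
  have hcard : Fintype.card I ≤ 2 * (p * q) := by
    have h1 : Fintype.card I ≤ Fintype.card (Fin p × Fin q × Bool) :=
      Fintype.card_le_of_injective (fun s : I => s.1) Subtype.val_injective
    rw [Fintype.card_prod, Fintype.card_prod, Fintype.card_fin, Fintype.card_fin,
      Fintype.card_bool] at h1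
    calc _ ≤ _ := h1
      _ = 2 * (p * q) := by ring
  -- the number of edges
  have hpr : (p * q) * (p * q) - p * q ≤ pr K := by
    have h1 : ((Finset.univ : Finset ((Fin p × Fin q) × (Fin p × Fin q))).filter
        (fun x => x.1 ≠ x.2)).card = (p * q) * (p * q) - p * q := by
      have h2 : (Finset.univ : Finset ((Fin p × Fin q) × (Fin p × Fin q))).filter
        (fun x => x.1 ≠ x.2) = (Finset.univ : Finset (Fin p × Fin q)).offDiag := by
        ext x
        simp [Finset.mem_offDiag]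
      rw [h2, Finset.offDiag_card, Finset.card_univ, Fintype.card_prod, Fintype.card_fin,
        Fintype.card_fin]
    rw [← h1]
    unfold pr
    let g : I × I → (Fin p × Fin q) × (Fin p × Fin q) := fun x =>
      ((x.1.1.1, x.1.1.2.1), (x.2.1.1, x.2.1.2.1))
    have h3 : (Finset.univ : Finset ((Fin p × Fin q) × (Fin p × Fin q))).filter
        (fun x => x.1 ≠ x.2) ⊆
        ((Finset.univ : Finset (I × I)).filter (fun x => K.Adj x.1 x.2)).image g := by
      rintro ⟨⟨i, j⟩, ⟨i', j'⟩⟩ hx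
      rw [Finset.mem_filter] at hx
      have hne : (i, j) ≠ (i', j') := hx.2
      obtain ⟨x, hx1, x', hx2, hxx⟩ := hD3 i i'
      obtain ⟨y, hy1, y', hy2, hyy⟩ := hD3' j j'
      obtain ⟨s, hs1, hs2, hs3⟩ := hfind i j x y hx1 hy1
      obtain ⟨t, ht1, ht2, ht3⟩ := hfind i' j' x' y' hx2 hy2
      rw [Finset.mem_image]
      refine ⟨(s, t), ?_, ?_⟩
      · rw [Finset.mem_filter]
        refine ⟨Finset.mem_univ _, ?_, (x, y), hs3, (x', y'), ht3, hxx, hyy⟩
        intro hst
        have hst' : s = t := hst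
        apply hne
        rw [← hs1, ← hs2, ← ht1, ← ht2, hst']
      · show ((s.1.1, s.1.2.1), (t.1.1, t.1.2.1)) = ((i, j), (i', j'))
        rw [hs1, hs2, ht1, ht2]
    refine (Finset.card_le_card h3).trans (Finset.card_image_le.trans (le_of_eq ?_))
    congr!
  rw [avgDeg_eq]
  have hN : 1 ≤ p * q := Nat.mul_pos hp hq
  have hNR : (1 : ℝ) ≤ ((p * q : ℕ) : ℝ) := by exact_mod_cast hN
  have hcpos : (0 : ℝ) < Fintype.card I := by exact_mod_cast Fintype.card_pos
  rw [le_div_iff₀ hcpos]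
  have h4 : (Fintype.card I : ℝ) ≤ 2 * ((p * q : ℕ) : ℝ) := by exact_mod_cast hcard
  have h5 : ((p * q : ℕ) : ℝ) * ((p * q : ℕ) : ℝ) - ((p * q : ℕ) : ℝ) ≤ pr K := by
    have h6 : (p * q) ≤ (p * q) * (p * q) := Nat.le_mul_self _
    have h7 : (((p * q) * (p * q) - p * q : ℕ) : ℝ) ≤ (pr K : ℝ) := by exact_mod_cast hpr
    rw [Nat.cast_sub h6] at h7
    push_cast at h7 ⊢
    exact h7
  have h8 : (((p * q : ℕ) : ℝ) - 1) / 2 * Fintype.card I ≤
      (((p * q : ℕ) : ℝ) - 1) / 2 * (2 * ((p * q : ℕ) : ℝ)) :=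
    mul_le_mul_of_nonneg_left h4 (by linarith)
  linarith

end Pool.Agent.Run7.h367.DP
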