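import Pool.Agent.Run7.h367.DP.Chi

/-!
Direct products: inheritance, and the bound from the chromatic numbers.
-/

set_option autoImplicit false

namespace Pool.Agent.Run7.h367.DP

open SimpleGraph
open Pool.Agent.R34.FH Pool.Agent.TH507.Host

variable {V W : Type} {G : SimpleGraph V} {H : SimpleGraph W}

lemma left_not {k : ℕ} (h : ¬ (T G H).Colorable k) : ¬ G.Colorable k := fun hc =>
  h (Colorable.of_hom (⟨Prod.fst, fun h => h.1⟩ : T G H →g G) hc)

lemma right_not {k : ℕ} (h : ¬ (T G H).Colorable k) : ¬ H.Colorable k := fun hc =>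
  h (Colorable.of_hom (⟨Prod.snd, fun h => h.2⟩ : T G H →g H) hc)

lemma exists_edge {k : ℕ} (hk : 1 ≤ k) (h : ¬ G.Colorable k) : ∃ a b, G.Adj a b := by
  by_contra hcon
  push Not at hcon
  exact h ⟨Coloring.mk (fun _ => ⟨0, by omega⟩) (fun {v w} h => absurd h (hcon v w))⟩

/-- **Inheritance.** -/
theorem hered {k m : ℕ} (hk : 2 ≤ k) (hG : ¬ G.Colorable k → CM G m)
    (h : ¬ (T G H).Colorable k) : CM (T G H) m := by
  have h1 : ¬ H.Colorable 2 := fun hc => right_not h (hc.mono hk)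
  rw [colorable_iff_forall_connectedComponent] at h1
  push Not at h1
  obtain ⟨C, hC⟩ := h1
  have h2 : CM (T G C.toSimpleGraph) m :=
    prod_minor (hG (left_not h)) C.connected_toSimpleGraph hC
  refine CM.of_hom (fun x : V × C => ((x.1, x.2.1) : V × W)) ?_ ?_ h2
  · rintro ⟨a, b⟩ ⟨a', b'⟩ h
    simp only [Prod.mk.injEq] at h
    exact Prod.ext h.1 (Subtype.ext h.2)
  · rintro ⟨a, b⟩ ⟨a', b'⟩ h
    exact h

lemma CM_zero : CM G 0 := ⟨fun i => i.elim0, fun i => i.elim0, fun i => i.elim0, fun i => i.elim0⟩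

lemma conn_single (a : V) : (G.induce ({a} : Set V)).Connected := by
  have : Nonempty ({a} : Set V) := ⟨⟨_, rfl⟩⟩
  refine ⟨fun x y => ?_⟩
  have : x = y := Subsingleton.elim _ _
  subst this
  exact Reachable.refl _

lemma CM_one (a : V) : CM G 1 :=
  ⟨fun _ => {a}, fun _ => conn_single a, fun i j hij => absurd (Subsingleton.elim i j) hij,
    fun i j hij => absurd (Subsingleton.elim i j) hij⟩

lemma CM_two {a b : V} (h : G.Adj a b) : CM G 2 := by
  refine ⟨fun i => {if i = 0 then a else b}, fun i => conn_single _, ?_, ?_⟩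
  · intro i j hij
    rw [Set.disjoint_singleton]
    fin_cases i <;> fin_cases j <;> simp_all [h.ne, h.ne']
  · intro i j hij
    refine ⟨_, rfl, _, rfl, ?_⟩
    fin_cases i <;> fin_cases j <;> simp_all [h.symm]

theorem hered_Q1 (hG : ∀ k, ¬ G.Colorable k → CM G k) (k : ℕ) (h : ¬ (T G H).Colorable k) :
    CM (T G H) k := by
  rcases Nat.lt_or_ge k 2 with hk | hk
  · rcases Nat.lt_or_ge k 1 with hk1 | hk1
    · have : k = 0 := by omega
      subst this
      exact CM_zero
    · have : k = 1 := by omega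
      subst this
      obtain ⟨a, -⟩ := exists_edge le_rfl h
      exact CM_one a
  · exact hered hk (hG k) h

theorem hered_Hadwiger (hG : ∀ k, ¬ G.Colorable k → CM G (k + 1)) (k : ℕ)
    (h : ¬ (T G H).Colorable k) : CM (T G H) (k + 1) := by
  rcases Nat.lt_or_ge k 2 with hk | hk
  · rcases Nat.lt_or_ge k 1 with hk1 | hk1
    · have : k = 0 := by omega
      subst this
      rcases isEmpty_or_nonempty (V × W) with he | ⟨⟨a⟩⟩
      · exact absurd (Colorable.of_isEmpty 0) h
      · exact CM_one a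
    · have : k = 1 := by omega
      subst this
      obtain ⟨a, b, hab⟩ := exists_edge le_rfl h
      exact CM_two hab
  · exact hered hk (hG k) h

/-- the order of a fat clique minor -/
lemma fat_order [Fintype V] {a : ℕ} (ha : 2 ≤ a) (h : ¬ G.Colorable a) :
    ∃ p : ℕ, 1 ≤ p ∧ Fat G p ∧ (a : ℝ) / (72000 * √(Real.log a)) ≤ p := by
  have haR : (2 : ℝ) ≤ a := by exact_mod_cast ha
  have hl2 := Real.log_two_gt_d9
  have hla : Real.log 2 ≤ Real.log a := Real.log_le_log (by norm_num) haR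
  have hs : (1 / 2 : ℝ) ≤ √(Real.log a) := by
    apply Real.le_sqrt_of_sq_le
    linarith
  have hs0 : 0 < √(Real.log a) := by linarith
  set x : ℝ := a / (36000 * √(Real.log a)) with hx
  have hx0 : 0 ≤ x := by positivity
  have hxa : x * (36000 * √(Real.log a)) = a := by
    rw [hx]
    exact div_mul_cancel₀ _ (by positivity)
  have hx2 : (a : ℝ) / (72000 * √(Real.log a)) = x / 2 := by
    rw [hx, div_div]
    congr 1
    ring
  rw [hx2]
  rcases Nat.lt_or_ge ⌊x⌋₊ 2 with ht | ht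
  · have h1 : x < 2 := by
      have := Nat.lt_floor_add_one x
      have h2 : ((⌊x⌋₊ : ℕ) : ℝ) ≤ 1 := by exact_mod_cast (by omega : ⌊x⌋₊ ≤ 1)
      linarith
    obtain ⟨u, v, huv⟩ := exists_edge (by omega) h
    refine ⟨1, le_rfl, fat_one huv, ?_⟩
    push_cast
    linarith
  · refine ⟨⌊x⌋₊, by omega, fat_of_CM (chi_minor G a h ht ?_), ?_⟩
    · have h1 : ((⌊x⌋₊ : ℕ) : ℝ) ≤ x := Nat.floor_le hx0
      have h2 : x ≤ a := by
        rw [← hxa]
        nlinarith
      have h3 : (2 : ℝ) ≤ ((⌊x⌋₊ : ℕ) : ℝ) := by exact_mod_cast ht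
      have h4 : √(Real.log ((⌊x⌋₊ : ℕ) : ℝ)) ≤ √(Real.log a) :=
        Real.sqrt_le_sqrt (Real.log_le_log (by linarith) (h1.trans h2))
      calc 36000 * (((⌊x⌋₊ : ℕ) : ℝ) * √(Real.log ((⌊x⌋₊ : ℕ) : ℝ)))
          ≤ 36000 * (x * √(Real.log a)) := by gcongr
        _ = x * (36000 * √(Real.log a)) := by ring
        _ = a := hxa
    · have := Nat.lt_floor_add_one x
      have h3 : (2 : ℝ) ≤ ((⌊x⌋₊ : ℕ) : ℝ) := by exact_mod_cast ht
      linarith

/-- **The product bound.** -/
theorem product_bound [Fintype V] [Fintype W] {a b m : ℕ} (ha : 2 ≤ a) (hb : 2 ≤ b)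
    (hG : ¬ G.Colorable a) (hH : ¬ H.Colorable b)
    (hm : 10 ^ 15 * (m * (Real.log (a * b) * √(Real.log (a * b)))) ≤ (a : ℝ) * b) :
    CM (T G H) m := by
  rcases Nat.eq_zero_or_pos m with rfl | hm0
  · exact CM_zero
  obtain ⟨p, hp1, hp, hpa⟩ := fat_order ha hG
  obtain ⟨q, hq1, hq, hqb⟩ := fat_order hb hH
  obtain ⟨I, hI, hI', K, hK, hKd⟩ := dense_minor hp hq hp1 hq1
  have haR : (2 : ℝ) ≤ a := by exact_mod_cast ha
  have hbR : (2 : ℝ) ≤ b := by exact_mod_cast hb
  have hmR : (1 : ℝ) ≤ m := by exact_mod_cast hm0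
  have hl2 := Real.log_two_gt_d9
  have hla : Real.log 2 ≤ Real.log a := Real.log_le_log (by norm_num) haR
  have hlb : Real.log 2 ≤ Real.log b := Real.log_le_log (by norm_num) hbR
  set X : ℝ := (a : ℝ) * b with hX
  have hX0 : 0 < X := by positivity
  set L : ℝ := Real.log X with hL
  have hLab : L = Real.log a + Real.log b := by
    rw [hL, hX, Real.log_mul (by positivity) (by positivity)]
  have hL1 : 1 ≤ L := by rw [hLab]; linarith
  have hL0 : 0 < L := by linarith
  have hs1 : 1 ≤ √L := by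
    apply Real.le_sqrt_of_sq_le
    linarith
  have hXm : 10 ^ 15 * (m * L) ≤ X := by
    refine le_trans ?_ hm
    have : (m : ℝ) * L ≤ m * (L * √L) := by
      apply mul_le_mul_of_nonneg_left _ (by positivity)
      nlinarith
    linarith
  have hXL : 10 ^ 15 * L ≤ X := by
    refine le_trans ?_ hXm
    nlinarith
  -- the order of the product
  set sa := √(Real.log a) with hsa
  set sb := √(Real.log b) with hsb
  have hsa0 : 0 < sa := Real.sqrt_pos.2 (by linarith)
  have hsb0 : 0 < sb := Real.sqrt_pos.2 (by linarith)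
  have hsa2 : sa ^ 2 = Real.log a := Real.sq_sqrt (by linarith)
  have hsb2 : sb ^ 2 = Real.log b := Real.sq_sqrt (by linarith)
  have hsab : sa * sb ≤ L / 2 := by
    rw [hLab, ← hsa2, ← hsb2]
    nlinarith [sq_nonneg (sa - sb)]
  have hpa' : (a : ℝ) ≤ p * (72000 * sa) := by
    rwa [div_le_iff₀ (by positivity)] at hpa
  have hqb' : (b : ℝ) ≤ q * (72000 * sb) := by
    rwa [div_le_iff₀ (by positivity)] at hqb
  have hpq : X ≤ (p * q : ℝ) * (72000 ^ 2 * (L / 2)) := by
    calc X ≤ (p * (72000 * sa)) * (q * (72000 * sb)) := by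
          rw [hX]
          exact mul_le_mul hpa' hqb' (by positivity) (by positivity)
      _ = (p * q : ℝ) * (72000 ^ 2 * (sa * sb)) := by ring
      _ ≤ _ := by gcongr
  -- the size of the minor
  have hu : ((m + 1 : ℕ) : ℝ) ≤ 2 * m := by
    push_cast
    linarith
  have huX : ((m + 1 : ℕ) : ℝ) ≤ X := by
    refine hu.trans (le_trans ?_ hXm)
    nlinarith
  have hlog : √(Real.log ((m + 1 : ℕ) : ℝ)) ≤ √L :=
    Real.sqrt_le_sqrt (Real.log_le_log (by positivity) huX)
  have key : 36000 * (((m + 1 : ℕ) : ℝ) * √(Real.log ((m + 1 : ℕ) : ℝ))) ≤ avgDeg K := by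
    refine le_trans ?_ hKd
    have h1 : 36000 * (((m + 1 : ℕ) : ℝ) * √(Real.log ((m + 1 : ℕ) : ℝ))) ≤
        36000 * (2 * m * √L) := by gcongr
    refine h1.trans ?_
    have h2 : ((p * q : ℕ) : ℝ) = (p : ℝ) * q := by push_cast; ring
    rw [h2]
    have h3 : 1 ≤ L * √L := by nlinarith
    have h4 : (m : ℝ) * √L * L = m * (L * √L) := by ring
    have h5 : 10 ^ 15 * (m * √L) ≤ (p * q : ℝ) * (72000 ^ 2 / 2) := by
      have h6 : 10 ^ 15 * (m * √L) * L ≤ (p * q : ℝ) * (72000 ^ 2 / 2) * L := by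
        calc 10 ^ 15 * (m * √L) * L = 10 ^ 15 * (m * (L * √L)) := by ring
          _ ≤ X := hm
          _ ≤ _ := hpq
          _ = _ := by ring
      exact le_of_mul_le_mul_right h6 hL0
    have h7 : (1 : ℝ) ≤ m * √L := by nlinarith
    linarith
  have hne : 2 ≤ m + 1 := by omega
  exact (CM.of_minor hK (KT hne I K key)).mono (by omega)

lemma large_ineq {k : ℕ} (hk : 10 ^ 20 ≤ k) :
    10 ^ 15 * (((k + 1 : ℕ) : ℝ) * (Real.log ((k : ℝ) * k) * √(Real.log ((k : ℝ) * k)))) ≤
      (k : ℝ) * k := by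
  have hkR : (10 : ℝ) ^ 20 ≤ k := by exact_mod_cast hk
  have hk0 : (0 : ℝ) < k := by linarith [show (0 : ℝ) < 10 ^ 20 by norm_num]
  set y : ℝ := k / 10 ^ 20 with hy
  have hky : (k : ℝ) = 10 ^ 20 * y := by
    rw [hy]
    field_simp
  have hy1 : 1 ≤ y := by
    rw [hy, le_div_iff₀ (by norm_num)]
    linarith
  set z : ℝ := √y with hz
  have hz2 : z ^ 2 = y := Real.sq_sqrt (by linarith)
  have hz1 : 1 ≤ z := by
    rw [hz]
    apply Real.le_sqrt_of_sq_le
    linarith
  have hlogz : Real.log z ≤ z - 1 := Real.log_le_sub_one_of_pos (by linarith)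
  have hlogy : Real.log y = 2 * Real.log z := by
    rw [← hz2, Real.log_pow]
    norm_num
  have hlog10 : Real.log (10 ^ 20) ≤ 48 := by
    have h3 : (10 : ℝ) ^ 20 ≤ 2 ^ 67 := by norm_num
    have h4 : Real.log (10 ^ 20) ≤ Real.log (2 ^ 67) := Real.log_le_log (by norm_num) h3
    have h5 := Real.log_two_lt_d9
    have h6 : Real.log ((2 : ℝ) ^ 67) = 67 * Real.log 2 := by
      rw [Real.log_pow]
      norm_num
    linarith
  have hlogk : Real.log k = Real.log (10 ^ 20) + Real.log y := by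
    rw [hky, Real.log_mul (by norm_num) (by linarith)]
  have hL : Real.log ((k : ℝ) * k) = 2 * Real.log k := by
    rw [Real.log_mul hk0.ne' hk0.ne']
    ring
  have hLz : Real.log ((k : ℝ) * k) ≤ 100 * z := by
    rw [hL, hlogk, hlogy]
    linarith
  have hL0 : 0 ≤ Real.log ((k : ℝ) * k) := by
    apply Real.log_nonneg
    nlinarith
  have hsq : √(Real.log ((k : ℝ) * k)) ≤ 10 * z := by
    rw [Real.sqrt_le_left (by positivity)]
    calc Real.log ((k : ℝ) * k) ≤ 100 * z := hLz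
      _ ≤ (10 * z) ^ 2 := by nlinarith
  have h6 : Real.log ((k : ℝ) * k) * √(Real.log ((k : ℝ) * k)) ≤ 1000 * y := by
    calc _ ≤ (100 * z) * (10 * z) := mul_le_mul hLz hsq (Real.sqrt_nonneg _) (by positivity)
      _ = 1000 * y := by rw [← hz2]; ring
  have h7 : (((k + 1 : ℕ)) : ℝ) ≤ 2 * k := by
    push_cast
    linarith [show (1 : ℝ) ≤ 10 ^ 20 by norm_num]
  calc 10 ^ 15 * ((((k + 1 : ℕ)) : ℝ) *
        (Real.log ((k : ℝ) * k) * √(Real.log ((k : ℝ) * k))))
      ≤ 10 ^ 15 * ((2 * k) * (1000 * y)) := by gcongr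
    _ = (2 / 100) * (k * (10 ^ 20 * y)) := by ring
    _ = (2 / 100) * (k * k) := by rw [← hky]
    _ ≤ (k : ℝ) * k := by nlinarith

/-- **Direct products of large chromatic number.** -/
theorem large [Fintype V] [Fintype W] {k : ℕ} (hk : 10 ^ 20 ≤ k)
    (h : ¬ (T G H).Colorable k) : CM (T G H) (k + 1) :=
  product_bound (le_trans (by norm_num) hk) (le_trans (by norm_num) hk) (left_not h)
    (right_not h) (large_ineq hk)

end Pool.Agent.Run7.h367.DP
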