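import Pool.Agent.Run7.h367.DP.Final

/-!
Infinite graphs.
-/

set_option autoImplicit false

namespace Pool.Agent.Run7.h367.DP

open SimpleGraph

variable {V W : Type} {G : SimpleGraph V} {H : SimpleGraph W}

/-- de Bruijn–Erdős -/
lemma finite_sub {k : ℕ} (h : ¬ G.Colorable k) :
    ∃ S : Set V, S.Finite ∧ ¬ (G.induce S).Colorable k := by
  classical
  by_contra hcon
  push Not at hcon
  apply h
  have h1 : ∀ G' : G.Subgraph, G'.verts.Finite → G'.coe →g (⊤ : SimpleGraph (Fin k)) := by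
    intro G' hG'
    have c : (G.induce G'.verts).Coloring (Fin k) := (hcon G'.verts hG').some
    exact ⟨fun x => c x, fun {x y} hxy => c.valid (v := x) (w := y) (G'.adj_sub hxy)⟩
  exact nonempty_hom_of_forall_finite_subgraph_hom h1

lemma CM.of_induce {m : ℕ} (S : Set V) (S' : Set W) (h : CM (T (G.induce S) (H.induce S')) m) :
    CM (T G H) m := by
  refine CM.of_hom (fun x : S × S' => ((x.1.1, x.2.1) : V × W)) ?_ (fun x y h => h) h
  rintro ⟨a, b⟩ ⟨a', b'⟩ h
  simp only [Prod.mk.injEq] at h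
  exact Prod.ext (Subtype.ext h.1) (Subtype.ext h.2)

theorem product_bound_inf {a b m : ℕ} (ha : 2 ≤ a) (hb : 2 ≤ b)
    (hG : ¬ G.Colorable a) (hH : ¬ H.Colorable b)
    (hm : 10 ^ 15 * (m * (Real.log (a * b) * √(Real.log (a * b)))) ≤ (a : ℝ) * b) :
    CM (T G H) m := by
  obtain ⟨S, hS, h1⟩ := finite_sub hG
  obtain ⟨S', hS', h2⟩ := finite_sub hH
  have := hS.fintype
  have := hS'.fintype
  exact CM.of_induce S S' (product_bound ha hb h1 h2 hm)

lemma large_of_left {k : ℕ} (hk : 10 ^ 20 ≤ k) (hG : ¬ G.Colorable k) (hH : ¬ H.Colorable k) :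
    CM (T G H) (k + 1) := by
  refine product_bound_inf (le_trans (by norm_num) hk) (le_trans (by norm_num) hk) hG hH ?_
  exact large_ineq hk

theorem large_inf {k : ℕ} (hk : 10 ^ 20 ≤ k) (h : ¬ (T G H).Colorable k) :
    CM (T G H) (k + 1) := large_of_left hk (left_not h) (right_not h)

end Pool.Agent.Run7.h367.DP
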