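import Pool.Agent.Run7.h367.DP.Conn

/-!
Clique minors pass from a graph to its direct products with connected nonbipartite graphs.
-/

set_option autoImplicit false

namespace Pool.Agent.Run7.h367.DP

open SimpleGraph

variable {V W : Type} {G : SimpleGraph V} {H : SimpleGraph W}

/-- clique minors -/
def CM {V : Type} (G : SimpleGraph V) (m : ℕ) : Prop :=
  ∃ B : Fin m → Set V,
    (∀ i, (G.induce (B i)).Connected) ∧
    (∀ i j, i ≠ j → Disjoint (B i) (B j)) ∧
    (∀ i j, i ≠ j → ∃ u ∈ B i, ∃ w ∈ B j, G.Adj u w)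

lemma CM.mono {m k : ℕ} (h : CM G m) (hk : k ≤ m) : CM G k := by
  obtain ⟨B, h1, h2, h3⟩ := h
  refine ⟨fun i => B (Fin.castLE hk i), fun i => h1 _, fun i j hij => h2 _ _ ?_,
    fun i j hij => h3 _ _ ?_⟩
  · exact fun h => hij (Fin.castLE_injective hk h)
  · exact fun h => hij (Fin.castLE_injective hk h)

/-- a clique minor of an induced subgraph -/
lemma CM.of_hom {m : ℕ} (f : V → W) (hf : Function.Injective f)
    (hadj : ∀ u v, G.Adj u v → H.Adj (f u) (f v)) (h : CM G m) : CM H m := by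
  obtain ⟨B, h1, h2, h3⟩ := h
  refine ⟨fun i => f '' B i, fun i => ?_, fun i j hij => ?_, fun i j hij => ?_⟩
  · obtain ⟨⟨a, ha⟩⟩ := (h1 i).nonempty
    have e : f '' B i = (fun x : B i => f x.1) '' {x | (G.induce (B i)).Reachable ⟨a, ha⟩ x} := by
      ext y
      constructor
      · rintro ⟨x, hx, rfl⟩
        exact ⟨⟨x, hx⟩, (h1 i).preconnected _ _, rfl⟩
      · rintro ⟨x, -, rfl⟩
        exact ⟨x.1, x.2, rfl⟩
    show (H.induce (f '' B i)).Connected
    rw [e]
    exact conn_image (K := G.induce (B i)) (F := H) (fun x : B i => f x.1)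
      (fun x y h => hadj _ _ h) ⟨a, ha⟩
  · exact (Set.disjoint_image_iff hf).2 (h2 i j hij)
  · obtain ⟨u, hu, w, hw, huw⟩ := h3 i j hij
    exact ⟨f u, ⟨u, hu, rfl⟩, f w, ⟨w, hw, rfl⟩, hadj _ _ huw⟩

/-- a connected set without edges is a point -/
lemma eq_of_no_edge {X : Set V} (hc : (G.induce X).Connected)
    (hE : ¬ ∃ u ∈ X, ∃ w ∈ X, G.Adj u w) {u v : V} (hu : u ∈ X) (hv : v ∈ X) : u = v := by
  obtain ⟨p⟩ := hc.preconnected ⟨u, hu⟩ ⟨v, hv⟩
  cases p with
  | nil => rfl
  | @cons _ w _ h _ => exact absurd ⟨u, hu, w.1, w.2, h⟩ hE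

lemma conn_prod {X : Set V} (hc : (G.induce X).Connected) (hE : ∃ u ∈ X, ∃ w ∈ X, G.Adj u w)
    (hH : H.Connected) (h2 : ¬ H.Colorable 2) {a b : W} (hab : H.Adj a b) :
    ((T G H).induce (X ×ˢ (Set.univ : Set W))).Connected := by
  obtain ⟨u, hu, w, hw, huw⟩ := hE
  have h1 : (T (G.induce X) H).Connected :=
    conn_of_odd (a₀ := ⟨u, hu⟩) (a₁ := ⟨w, hw⟩) hc.preconnected hH.preconnected huw hab h2
  have e : X ×ˢ (Set.univ : Set W) = (fun x : X × W => ((x.1.1, x.2) : V × W)) ''
      {x | (T (G.induce X) H).Reachable (⟨u, hu⟩, a) x} := by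
    ext ⟨x, y⟩
    constructor
    · rintro ⟨hx, -⟩
      exact ⟨(⟨x, hx⟩, y), h1.preconnected _ _, rfl⟩
    · rintro ⟨⟨x', y'⟩, -, h⟩
      simp only [Prod.mk.injEq] at h
      exact ⟨h.1 ▸ x'.2, trivial⟩
  rw [e]
  exact conn_image (K := T (G.induce X) H) (F := T G H)
    (fun x : X × W => ((x.1.1, x.2) : V × W)) (fun x y h => h) (⟨u, hu⟩, a)

/-- a fixed point free permutation without two-cycles -/
lemma exists_next {n : ℕ} (S : Finset (Fin n)) (hS : 3 ≤ S.card) :
    ∃ next : Fin n → Fin n, (∀ i ∈ S, next i ∈ S) ∧ (∀ i ∈ S, next i ≠ i) ∧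
      (∀ i ∈ S, next (next i) ≠ i) ∧ (∀ i ∈ S, ∀ j ∈ S, next i = next j → i = j) := by
  classical
  obtain ⟨m, hm⟩ : ∃ m, S.card = m + 3 := ⟨S.card - 3, by omega⟩
  let e : S ≃ Fin (m + 3) := S.equivFinOfCardEq hm
  let next : Fin n → Fin n := fun i => if h : i ∈ S then (e.symm (e ⟨i, h⟩ + 1)).1 else i
  have hn : ∀ i (h : i ∈ S), next i = (e.symm (e ⟨i, h⟩ + 1)).1 := fun i h => by
    simp only [next, h, dif_pos]
  have hmem : ∀ i ∈ S, next i ∈ S := fun i h => by
    rw [hn i h]
    exact (e.symm _).2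
  have hne : ∀ k : Fin (m + 3), k + 1 ≠ k := by
    intro k h
    have h' := congrArg Fin.val h
    rw [Fin.val_add] at h'
    have h1 : ((1 : Fin (m + 3)) : ℕ) = 1 := rfl
    rw [h1] at h'
    have := k.2
    rcases Nat.lt_or_ge (k.1 + 1) (m + 3) with hlt | hge
    · rw [Nat.mod_eq_of_lt hlt] at h'
      omega
    · have : k.1 + 1 = m + 3 := by omega
      rw [this, Nat.mod_self] at h'
      omega
  have hne2 : ∀ k : Fin (m + 3), k + 1 + 1 ≠ k := by
    intro k h
    have h0 : k + (1 + 1) = k + 0 := by rw [← add_assoc, h, add_zero]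
    have h1 := add_left_cancel h0
    have h' := congrArg Fin.val h1
    rw [Fin.val_add] at h'
    have h1 : ((1 : Fin (m + 3)) : ℕ) = 1 := rfl
    have h3 : ((0 : Fin (m + 3)) : ℕ) = 0 := rfl
    rw [h1, h3, Nat.mod_eq_of_lt (by omega)] at h'
    omega
  have hval : ∀ i (h : i ∈ S), e ⟨next i, hmem i h⟩ = e ⟨i, h⟩ + 1 := by
    intro i h
    have : (⟨next i, hmem i h⟩ : S) = e.symm (e ⟨i, h⟩ + 1) := Subtype.ext (hn i h)
    rw [this, e.apply_symm_apply]
  refine ⟨next, hmem, ?_, ?_, ?_⟩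
  · intro i h hcon
    have h1 := hval i h
    have h2 : (⟨next i, hmem i h⟩ : S) = ⟨i, h⟩ := Subtype.ext hcon
    rw [h2] at h1
    exact hne _ h1.symm
  · intro i h hcon
    have h1 := hval (next i) (hmem i h)
    have h2 : (⟨next (next i), hmem _ (hmem i h)⟩ : S) = ⟨i, h⟩ := Subtype.ext hcon
    rw [h2, hval i h] at h1
    exact hne2 _ h1.symm
  · intro i hi j hj hij
    have h2 : (⟨next i, hmem i hi⟩ : S) = ⟨next j, hmem j hj⟩ := Subtype.ext hij
    have h1 := hval i hi
    rw [h2, hval j hj] at h1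
    have h3 := e.injective (add_right_cancel h1)
    exact (Subtype.mk.injEq _ _ _ _ ▸ h3).symm

/-- **Clique minors of a direct product.** -/
theorem prod_minor {n : ℕ} (hG : CM G n) (hH : H.Connected) (h2 : ¬ H.Colorable 2) :
    CM (T G H) n := by
  classical
  obtain ⟨B, hc, hd, ha⟩ := hG
  obtain ⟨a, b, hab⟩ : ∃ a b, H.Adj a b := by
    by_contra hcon
    push Not at hcon
    exact h2 ⟨Coloring.mk (fun _ => 0) (fun {v w} h => absurd h (hcon v w))⟩
  have hne : ∀ i, ∃ v, v ∈ B i := fun i => by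
    obtain ⟨⟨v, hv⟩⟩ := (hc i).nonempty
    exact ⟨v, hv⟩
  choose v hv using hne
  let E : Fin n → Prop := fun i => ∃ u ∈ B i, ∃ w ∈ B i, G.Adj u w
  have hS : ∀ i, ¬ E i → ∀ u ∈ B i, u = v i := fun i hi u hu =>
    eq_of_no_edge (hc i) hi hu (hv i)
  have hadjS : ∀ i j, i ≠ j → ¬ E i → ∃ w ∈ B j, G.Adj (v i) w := by
    intro i j hij hi
    obtain ⟨u, hu, w, hw, huw⟩ := ha i j hij
    rw [hS i hi u hu] at huw
    exact ⟨w, hw, huw⟩
  have hvv : ∀ i j, i ≠ j → ¬ E i → ¬ E j → G.Adj (v i) (v j) := by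
    intro i j hij hi hj
    obtain ⟨w, hw, h⟩ := hadjS i j hij hi
    rw [hS j hj w hw] at h
    exact h
  have hvinj : ∀ i j, v i = v j → i = j := by
    intro i j h
    by_contra hij
    exact Set.disjoint_left.1 (hd i j hij) (hv i) (h ▸ hv j)
  obtain ⟨Y, hY1, hY2, hY3, hY4, hY5⟩ : ∃ Y : Fin n → Set (V × W),
      (∀ i, ¬ E i → ((T G H).induce (Y i)).Connected) ∧
      (∀ i j, ¬ E i → ¬ E j → i ≠ j → Disjoint (Y i) (Y j)) ∧
      (∀ i j, ¬ E i → ¬ E j → i ≠ j → ∃ x ∈ Y i, ∃ y ∈ Y j, (T G H).Adj x y) ∧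
      (∀ i, ¬ E i → ∀ x ∈ Y i, ∃ j, ¬ E j ∧ x.1 = v j) ∧
      (∀ i, ¬ E i → ∃ x ∈ Y i, x.1 = v i ∧ ∃ c, H.Adj x.2 c) := by
    by_cases h3 : 3 ≤ (Finset.univ.filter (fun i => ¬ E i)).card
    · obtain ⟨next, hn1, hn2, hn3, hn4⟩ := exists_next _ h3
      simp only [Finset.mem_filter, Finset.mem_univ, true_and] at hn1 hn2 hn3 hn4
      refine ⟨fun i => {(v i, a), (v (next i), b)}, ?_, ?_, ?_, ?_, ?_⟩
      · intro i hi
        exact induce_pair_connected_of_adj
          (T_adj.2 ⟨hvv i (next i) (hn2 i hi).symm hi (hn1 i hi), hab⟩)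
      · intro i j hi hj hij
        rw [Set.disjoint_left]
        rintro x (rfl | rfl) (h | h)
        · exact hij (hvinj _ _ (Prod.mk.inj h).1)
        · exact hab.ne (Prod.mk.inj h).2
        · exact hab.ne' (Prod.mk.inj h).2
        · exact hij (hn4 i hi j hj (hvinj _ _ (Prod.mk.inj h).1))
      · intro i j hi hj hij
        by_cases hji : next j = i
        · refine ⟨(v (next i), b), Or.inr rfl, (v j, a), Or.inl rfl, T_adj.2 ⟨?_, hab.symm⟩⟩
          refine hvv _ _ ?_ (hn1 i hi) hj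
          intro h
          apply hn3 j hj
          rw [hji]
          exact h
        · refine ⟨(v i, a), Or.inl rfl, (v (next j), b), Or.inr rfl, T_adj.2 ⟨?_, hab⟩⟩
          exact hvv _ _ (Ne.symm hji) hi (hn1 j hj)
      · rintro i hi x (rfl | rfl)
        · exact ⟨i, hi, rfl⟩
        · exact ⟨next i, hn1 i hi, rfl⟩
      · intro i hi
        exact ⟨(v i, a), Or.inl rfl, rfl, b, hab⟩
    · by_cases h0 : ∃ i₀, ¬ E i₀
      · obtain ⟨i₀, hi₀⟩ := h0
        have key : ∀ i j, ¬ E i → ¬ E j → i ≠ j → (i = i₀ ∧ j ≠ i₀) ∨ (j = i₀ ∧ i ≠ i₀) := by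
          intro i j hi hj hij
          by_cases hii : i = i₀
          · exact Or.inl ⟨hii, fun h => hij (hii.trans h.symm)⟩
          · by_cases hjj : j = i₀
            · exact Or.inr ⟨hjj, hii⟩
            · exfalso
              apply h3
              have h4 : ({i₀, i, j} : Finset (Fin n)) ⊆ Finset.univ.filter (fun i => ¬ E i) := by
                intro x hx
                simp only [Finset.mem_insert, Finset.mem_singleton] at hx
                rw [Finset.mem_filter]
                rcases hx with rfl | rfl | rfl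
                · exact ⟨Finset.mem_univ _, hi₀⟩
                · exact ⟨Finset.mem_univ _, hi⟩
                · exact ⟨Finset.mem_univ _, hj⟩
              have h5 : ({i₀, i, j} : Finset (Fin n)).card = 3 :=
                Finset.card_eq_three.2 ⟨i₀, i, j, Ne.symm hii, Ne.symm hjj, hij, rfl⟩
              rw [← h5]
              exact Finset.card_le_card h4
        refine ⟨fun i => {(v i, if i = i₀ then a else b)}, ?_, ?_, ?_, ?_, ?_⟩
        · intro i _
          have : Nonempty ({(v i, if i = i₀ then a else b)} : Set (V × W)) := ⟨⟨_, rfl⟩⟩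
          refine ⟨fun x y => ?_⟩
          have : x = y := Subsingleton.elim _ _
          subst this
          exact Reachable.refl _
        · intro i j hi hj hij
          rw [Set.disjoint_singleton]
          intro h
          exact hij (hvinj _ _ (Prod.mk.inj h).1)
        · intro i j hi hj hij
          refine ⟨_, rfl, _, rfl, T_adj.2 ⟨hvv i j hij hi hj, ?_⟩⟩
          rcases key i j hi hj hij with ⟨h4, h5⟩ | ⟨h4, h5⟩
          · simp only [h4, if_true, if_neg h5]
            exact hab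
          · simp only [h4, if_true, if_neg h5]
            exact hab.symm
        · rintro i hi x rfl
          exact ⟨i, hi, rfl⟩
        · intro i hi
          refine ⟨_, rfl, rfl, ?_⟩
          by_cases h : i = i₀
          · simp only [h, if_true]
            exact ⟨b, hab⟩
          · simp only [if_neg h]
            exact ⟨a, hab.symm⟩
      · push Not at h0
        exact ⟨fun _ => ∅, fun i hi => absurd (h0 i) hi, fun i j hi => absurd (h0 i) hi,
          fun i j hi => absurd (h0 i) hi, fun i hi => absurd (h0 i) hi,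
          fun i hi => absurd (h0 i) hi⟩
  refine ⟨fun i => if E i then B i ×ˢ (Set.univ : Set W) else Y i, ?_, ?_, ?_⟩
  · intro i
    by_cases hi : E i
    · have e : (if E i then B i ×ˢ (Set.univ : Set W) else Y i) = B i ×ˢ Set.univ := if_pos hi
      show ((T G H).induce (if E i then B i ×ˢ (Set.univ : Set W) else Y i)).Connected
      rw [e]
      exact conn_prod (hc i) hi hH h2 hab
    · have e : (if E i then B i ×ˢ (Set.univ : Set W) else Y i) = Y i := if_neg hi
      show ((T G H).induce (if E i then B i ×ˢ (Set.univ : Set W) else Y i)).Connected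
      rw [e]
      exact hY1 i hi
  · intro i j hij
    by_cases hi : E i
    · by_cases hj : E j
      · simp only [if_pos hi, if_pos hj]
        rw [Set.disjoint_left]
        rintro x ⟨h3, -⟩ ⟨h4, -⟩
        exact Set.disjoint_left.1 (hd i j hij) h3 h4
      · simp only [if_pos hi, if_neg hj]
        rw [Set.disjoint_left]
        rintro x ⟨h3, -⟩ h4
        obtain ⟨k, hk, h5⟩ := hY4 j hj x h4
        have hik : i ≠ k := fun h => hk (h ▸ hi)
        exact Set.disjoint_left.1 (hd i k hik) h3 (h5 ▸ hv k)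
    · by_cases hj : E j
      · simp only [if_neg hi, if_pos hj]
        rw [Set.disjoint_left]
        rintro x h4 ⟨h3, -⟩
        obtain ⟨k, hk, h5⟩ := hY4 i hi x h4
        have hik : j ≠ k := fun h => hk (h ▸ hj)
        exact Set.disjoint_left.1 (hd j k hik) h3 (h5 ▸ hv k)
      · simp only [if_neg hi, if_neg hj]
        exact hY2 i j hi hj hij
  · intro i j hij
    by_cases hi : E i
    · by_cases hj : E j
      · simp only [if_pos hi, if_pos hj]
        obtain ⟨u, hu, w, hw, huw⟩ := ha i j hij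
        exact ⟨(u, a), ⟨hu, trivial⟩, (w, b), ⟨hw, trivial⟩, T_adj.2 ⟨huw, hab⟩⟩
      · simp only [if_pos hi, if_neg hj]
        obtain ⟨x, hx, h4, c, hc'⟩ := hY5 j hj
        obtain ⟨w, hw, h5⟩ := hadjS j i hij.symm hj
        exact ⟨(w, c), ⟨hw, trivial⟩, x, hx, T_adj.2 ⟨by rw [h4]; exact h5.symm, hc'.symm⟩⟩
    · by_cases hj : E j
      · simp only [if_neg hi, if_pos hj]
        obtain ⟨x, hx, h4, c, hc'⟩ := hY5 i hi
        obtain ⟨w, hw, h5⟩ := hadjS i j hij hi
        exact ⟨x, hx, (w, c), ⟨hw, trivial⟩, T_adj.2 ⟨by rw [h4]; exact h5, hc'⟩⟩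
      · simp only [if_neg hi, if_neg hj]
        exact hY3 i j hi hj hij

end Pool.Agent.Run7.h367.DP
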