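import Pool.Agent.Run7.h367.DP.Inf

/-!
Direct products contain large complete bipartite graphs and have large average degree.
-/

set_option autoImplicit false

namespace Pool.Agent.Run7.h367.DP

open SimpleGraph
open Pool.Agent.R34.FH Pool.Agent.TH507.Host

variable {V W : Type} {G : SimpleGraph V} {H : SimpleGraph W}

/-- `K_{d+1,d+1}` in the product of two stars, and its clique minor -/
lemma star_minor {d : ℕ} {u : V} {x : W} (v : ℕ → V) (y : ℕ → W)
    (hv : ∀ i ≤ d, G.Adj u (v i)) (hvi : ∀ i ≤ d, ∀ j ≤ d, v i = v j → i = j)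
    (hy : ∀ i ≤ d, H.Adj x (y i)) (hyi : ∀ i ≤ d, ∀ j ≤ d, y i = y j → i = j) :
    CM (T G H) (d + 2) := by
  have hadj : ∀ i ≤ d, ∀ j ≤ d, (T G H).Adj (u, y i) (v j, x) := fun i hi j hj =>
    T_adj.2 ⟨hv j hj, (hy i hi).symm⟩
  let B : Fin (d + 2) → Set (V × W) := fun i =>
    {z | (i.1 ≤ d ∧ z = (u, y i.1)) ∨ (i.1 < d ∧ z = (v i.1, x)) ∨ (i.1 = d + 1 ∧ z = (v d, x))}
  refine ⟨B, ?_, ?_, ?_⟩
  · intro i
    show ((T G H).induce (B i)).Connected
    rcases lt_trichotomy i.1 d with h | h | h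
    · have e : B i = {(u, y i.1), (v i.1, x)} := by
        ext z
        constructor
        · rintro (⟨-, h1⟩ | ⟨-, h1⟩ | ⟨h2, h1⟩)
          · exact Or.inl h1
          · exact Or.inr h1
          · omega
        · rintro (h1 | h1)
          · exact Or.inl ⟨h.le, h1⟩
          · exact Or.inr (Or.inl ⟨h, h1⟩)
      rw [e]
      exact induce_pair_connected_of_adj (hadj _ h.le _ h.le)
    · have e : B i = {(u, y i.1)} := by
        ext z
        constructor
        · rintro (⟨-, h1⟩ | ⟨h2, h1⟩ | ⟨h2, h1⟩)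
          · exact h1
          · omega
          · omega
        · intro h1
          exact Or.inl ⟨h.le, h1⟩
      rw [e]
      exact conn_single _
    · have e : B i = {(v d, x)} := by
        ext z
        constructor
        · rintro (⟨h2, h1⟩ | ⟨h2, h1⟩ | ⟨h2, h1⟩)
          · omega
          · omega
          · exact h1
        · intro h1
          exact Or.inr (Or.inr ⟨by omega, h1⟩)
      rw [e]
      exact conn_single _
  · intro i j hij
    have hne : i.1 ≠ j.1 := fun h => hij (Fin.ext h)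
    rw [Set.disjoint_left]
    rintro z (⟨h1, rfl⟩ | ⟨h1, rfl⟩ | ⟨h1, rfl⟩) (⟨h2, h3⟩ | ⟨h2, h3⟩ | ⟨h2, h3⟩)
    · exact hne (hyi _ h1 _ h2 (Prod.mk.inj h3).2)
    · exact (hv _ h2.le).ne (Prod.mk.inj h3).1
    · exact (hv _ le_rfl).ne (Prod.mk.inj h3).1
    · exact (hv _ h1.le).ne' (Prod.mk.inj h3).1
    · exact hne (hvi _ h1.le _ h2.le (Prod.mk.inj h3).1)
    · have := hvi _ h1.le _ le_rfl (Prod.mk.inj h3).1
      omega
    · exact (hv _ le_rfl).ne' (Prod.mk.inj h3).1
    · have := hvi _ le_rfl _ h2.le (Prod.mk.inj h3).1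
      omega
    · omega
  · intro i j hij
    have hne : i.1 ≠ j.1 := fun h => hij (Fin.ext h)
    have hP : ∀ i : Fin (d + 2), i.1 ≤ d → (u, y i.1) ∈ B i := fun i h => Or.inl ⟨h, rfl⟩
    have hQ : ∀ i : Fin (d + 2), i.1 ≠ d → ∃ k ≤ d, (v k, x) ∈ B i := by
      intro i h
      rcases lt_or_gt_of_ne h with h1 | h1
      · exact ⟨i.1, h1.le, Or.inr (Or.inl ⟨h1, rfl⟩)⟩
      · exact ⟨d, le_rfl, Or.inr (Or.inr ⟨by omega, rfl⟩)⟩
    by_cases h1 : i.1 ≤ d ∧ j.1 ≠ d
    · obtain ⟨k, hk, h2⟩ := hQ j h1.2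
      exact ⟨_, hP i h1.1, _, h2, hadj _ h1.1 _ hk⟩
    · have h3 : j.1 ≤ d ∧ i.1 ≠ d := by
        have := i.2
        have := j.2
        omega
      obtain ⟨k, hk, h2⟩ := hQ i h3.2
      exact ⟨_, h2, _, hP j h3.1, (hadj _ h3.1 _ hk).symm⟩

/-- `u` has at least `k` neighbours -/
def Deg {V : Type} (G : SimpleGraph V) (k : ℕ) : Prop :=
  ∃ u : V, ∃ v : ℕ → V, (∀ i < k, G.Adj u (v i)) ∧ ∀ i < k, ∀ j < k, v i = v j → i = j

lemma deg_of_ncard {k : ℕ} {u : V} (S : Set V) (hS : S.Finite) (h1 : ∀ w ∈ S, G.Adj u w)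
    (h2 : k ≤ S.ncard) : Deg G k := by
  classical
  obtain ⟨T', hT1, hT2⟩ := Set.exists_subset_card_eq h2
  have hfin : T'.Finite := hS.subset hT1
  have hft := hfin.fintype
  have hc : Fintype.card T' = k := by
    rw [← hT2, Set.ncard_eq_toFinset_card', Set.toFinset_card]
  let e : T' ≃ Fin k := Fintype.equivFinOfCardEq hc
  refine ⟨u, fun n => if h : n < k then (e.symm ⟨n, h⟩).1 else u, ?_, ?_⟩
  · intro i hi
    simp only [hi, dif_pos]
    exact h1 _ (hT1 (e.symm _).2)
  · intro i hi j hj hij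
    simp only [hi, hj, dif_pos] at hij
    have := e.symm.injective (Subtype.ext hij)
    exact congrArg Fin.val this

lemma deg_of_not_colorable {k : ℕ} (h : ¬ G.Colorable k) : Deg G k := by
  classical
  obtain ⟨S, hS, h1⟩ := finite_sub h
  have := hS.fintype
  obtain ⟨S', ⟨v, hv⟩, h3⟩ := dense_sub (G.induce S) k h1
  have h4 := h3 v hv
  refine deg_of_ncard (u := v.1) (Subtype.val '' {w | w ∈ S' ∧ (G.induce S).Adj v w})
    (Set.toFinite _) ?_ ?_
  · rintro _ ⟨w, hw, rfl⟩
    exact hw.2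
  · rw [Set.ncard_image_of_injective _ Subtype.val_injective]
    exact h4

/-- two graphs of maximum degree at least `k` -/
lemma of_deg {k : ℕ} (hG : Deg G k) (hH : Deg H k) : CM (T G H) (k + 1) := by
  obtain ⟨u, v, h1, h2⟩ := hG
  obtain ⟨x, y, h3, h4⟩ := hH
  rcases k with _ | d
  · exact CM_one (u, x)
  · exact star_minor (d := d) (u := u) (x := x) v y (fun i hi => h1 i (by omega))
      (fun i hi j hj h => h2 i (by omega) j (by omega) h) (fun i hi => h3 i (by omega))
      (fun i hi j hj h => h4 i (by omega) j (by omega) h)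

/-- **Hadwiger's conjecture for direct products.** -/
theorem hadwiger_prod {k : ℕ} (hG : ¬ G.Colorable k) (hH : ¬ H.Colorable k) :
    CM (T G H) (k + 1) := of_deg (deg_of_not_colorable hG) (deg_of_not_colorable hH)

/-- the product of two graphs of minimum degree at least `a` and at least `b` -/
theorem product_KT [Fintype V] [Fintype W] {a b t : ℕ} (hG : ¬ G.Colorable a)
    (hH : ¬ H.Colorable b) (ht : 2 ≤ t) (hab : 36000 * (t * √(Real.log t)) ≤ (a : ℝ) * b) :
    CM (T G H) (2 * t) := by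
  classical
  obtain ⟨S, hS1, hS2⟩ := dense_sub G a hG
  obtain ⟨S', hS1', hS2'⟩ := dense_sub H b hH
  have hne : Nonempty S := hS1.to_subtype
  have hne' : Nonempty S' := hS1'.to_subtype
  have hf : Fintype (S × S') := Fintype.ofFinite _
  have h1 : (a : ℝ) * b ≤ avgDeg (T (G.induce S) (H.induce S')) := by
    have hpos : (0 : ℝ) < Fintype.card (S × S') := by exact_mod_cast Fintype.card_pos
    rw [avgDeg_eq, le_div_iff₀ hpos]
    have h2 : a * b * Fintype.card (S × S') ≤ pr (T (G.induce S) (H.induce S')) := by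
      rw [pr_eq]
      calc a * b * Fintype.card (S × S') = ∑ _x : S × S', a * b := by
            rw [Finset.sum_const, Finset.card_univ, smul_eq_mul, mul_comm]
        _ ≤ _ := Finset.sum_le_sum (fun x _ => ?_)
      have h3 : {w | w ∈ S ∧ G.Adj x.1.1 w} ×ˢ {w | w ∈ S' ∧ H.Adj x.2.1 w} =
          (fun z : S × S' => ((z.1.1, z.2.1) : V × W)) ''
            ((nb (T (G.induce S) (H.induce S')) x : Finset (S × S')) : Set (S × S')) := by
        ext ⟨w, w'⟩
        constructor
        · rintro ⟨⟨hw, hxw⟩, ⟨hw', hxw'⟩⟩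
          exact ⟨(⟨w, hw⟩, ⟨w', hw'⟩), by rw [Finset.mem_coe, mem_nb]; exact ⟨hxw, hxw'⟩, rfl⟩
        · rintro ⟨z, hz, h⟩
          rw [Finset.mem_coe, mem_nb] at hz
          simp only [Prod.mk.injEq] at h
          obtain ⟨rfl, rfl⟩ := h
          exact ⟨⟨z.1.2, hz.1⟩, ⟨z.2.2, hz.2⟩⟩
      have hinj : Function.Injective (fun z : S × S' => ((z.1.1, z.2.1) : V × W)) := by
        rintro ⟨p, q⟩ ⟨p', q'⟩ h
        simp only [Prod.mk.injEq] at h
        exact Prod.ext (Subtype.ext h.1) (Subtype.ext h.2)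
      have h4 := congrArg Set.ncard h3
      rw [Set.ncard_image_of_injective _ hinj, Set.ncard_coe_finset, Set.ncard_prod] at h4
      rw [← h4]
      exact Nat.mul_le_mul (hS2 x.1.1 x.1.2) (hS2' x.2.1 x.2.2)
    exact_mod_cast h2
  refine CM.of_hom (G := T (G.induce S) (H.induce S')) (H := T G H)
    (fun z : S × S' => ((z.1.1, z.2.1) : V × W)) ?_ (fun _ _ h => h)
    (KT ht (S × S') _ (hab.trans h1))
  rintro ⟨p, q⟩ ⟨p', q'⟩ h
  simp only [Prod.mk.injEq] at h
  exact Prod.ext (Subtype.ext h.1) (Subtype.ext h.2)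

theorem product_KT_inf {a b t : ℕ} (hG : ¬ G.Colorable a)
    (hH : ¬ H.Colorable b) (ht : 2 ≤ t) (hab : 36000 * (t * √(Real.log t)) ≤ (a : ℝ) * b) :
    CM (T G H) (2 * t) := by
  obtain ⟨S, hS, h1⟩ := finite_sub hG
  obtain ⟨S', hS', h2⟩ := finite_sub hH
  have := hS.fintype
  have := hS'.fintype
  exact CM.of_induce S S' (product_KT h1 h2 ht hab)

end Pool.Agent.Run7.h367.DP
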